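import Pool.Agent.U445.Levy.Top

/-!
# The Levy dragon
-/

set_option autoImplicit false

namespace Pool.Agent.U445.Levy

open Set Metric Complex

noncomputable section

def al : ℂ := (1 + I) / 2
def be : ℂ := (1 - I) / 2

def f0 (z : ℂ) : ℂ := al * z
def f1 (z : ℂ) : ℂ := be * z + al

theorem f0_re (z : ℂ) : (f0 z).re = (z.re - z.im) / 2 := by
  simp [f0, al, Complex.mul_re, Complex.div_re, Complex.div_im, Complex.normSq]; ring

theorem f0_im (z : ℂ) : (f0 z).im = (z.re + z.im) / 2 := by
  simp [f0, al, Complex.mul_im, Complex.div_re, Complex.div_im, Complex.normSq]; ring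

theorem f1_re (z : ℂ) : (f1 z).re = (z.re + z.im + 1) / 2 := by
  simp [f1, al, be, Complex.mul_re, Complex.div_re, Complex.div_im, Complex.normSq]; ring

theorem f1_im (z : ℂ) : (f1 z).im = (z.im - z.re + 1) / 2 := by
  simp [f1, al, be, Complex.mul_im, Complex.div_re, Complex.div_im, Complex.normSq]; ring

theorem cont_f0 : Continuous f0 := by unfold f0; fun_prop
theorem cont_f1 : Continuous f1 := by unfold f1; fun_prop

theorem al_ne : al ≠ 0 := by
  intro h
  have := congrArg Complex.re h
  simp [al, Complex.div_re, Complex.normSq] at this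

theorem be_ne : be ≠ 0 := by
  intro h
  have := congrArg Complex.re h
  simp [be, Complex.div_re, Complex.normSq] at this

theorem inj_f0 : Function.Injective f0 := fun x y h => mul_left_cancel₀ al_ne h
theorem inj_f1 : Function.Injective f1 := fun x y h => mul_left_cancel₀ be_ne (add_right_cancel h)

/-- the octagon -/
def Oct : Set ℂ := {z | -1/2 ≤ z.re ∧ z.re ≤ 3/2 ∧ -1/4 ≤ z.im ∧ z.im ≤ 1 ∧
  -1/2 ≤ z.re + z.im ∧ z.re + z.im ≤ 2 ∧ -1 ≤ z.re - z.im ∧ z.re - z.im ≤ 3/2}

def F (A : Set ℂ) : Set ℂ := f0 '' A ∪ f1 '' A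

theorem F_mono {A B : Set ℂ} (h : A ⊆ B) : F A ⊆ F B :=
  union_subset_union (image_mono h) (image_mono h)

theorem F_oct : F Oct ⊆ Oct := by
  rintro z (⟨w, hw, rfl⟩ | ⟨w, hw, rfl⟩)
  · obtain ⟨h1, h2, h3, h4, h5, h6, h7, h8⟩ := hw
    simp only [Oct, mem_setOf_eq, f0_re, f0_im]
    refine ⟨?_, ?_, ?_, ?_, ?_, ?_, ?_, ?_⟩ <;> linarith
  · obtain ⟨h1, h2, h3, h4, h5, h6, h7, h8⟩ := hw
    simp only [Oct, mem_setOf_eq, f1_re, f1_im]
    refine ⟨?_, ?_, ?_, ?_, ?_, ?_, ?_, ?_⟩ <;> linarith

def K : ℕ → Set ℂ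
  | 0 => Oct
  | n + 1 => F (K n)

theorem K_succ_sub (n : ℕ) : K (n + 1) ⊆ K n := by
  induction n with
  | zero => exact F_oct
  | succ n ih => exact F_mono ih

theorem K_anti : Antitone K := antitone_nat_of_succ_le K_succ_sub

theorem closed_oct : IsClosed Oct := by
  have h : Oct = {z : ℂ | -1/2 ≤ z.re} ∩ ({z : ℂ | z.re ≤ 3/2} ∩ ({z : ℂ | -1/4 ≤ z.im} ∩
    ({z : ℂ | z.im ≤ 1} ∩ ({z : ℂ | -1/2 ≤ z.re + z.im} ∩ ({z : ℂ | z.re + z.im ≤ 2} ∩
    ({z : ℂ | -1 ≤ z.re - z.im} ∩ {z : ℂ | z.re - z.im ≤ 3/2})))))) := by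
    ext z
    simp only [Oct, mem_setOf_eq, mem_inter_iff]
  rw [h]
  have c1 := Complex.continuous_re
  have c2 := Complex.continuous_im
  refine (isClosed_le continuous_const c1).inter ((isClosed_le c1 continuous_const).inter
    ((isClosed_le continuous_const c2).inter ((isClosed_le c2 continuous_const).inter
    ((isClosed_le continuous_const (c1.add c2)).inter
    ((isClosed_le (c1.add c2) continuous_const).inter
    ((isClosed_le continuous_const (c1.sub c2)).inter
    (isClosed_le (c1.sub c2) continuous_const)))))))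

theorem norm_oct {z : ℂ} (h : z ∈ Oct) : ‖z‖ ≤ 3 := by
  obtain ⟨h1, h2, h3, h4, h5, h6, h7, h8⟩ := h
  calc ‖z‖ ≤ |z.re| + |z.im| := Complex.norm_le_abs_re_add_abs_im z
    _ ≤ 3 / 2 + 1 := by
      apply add_le_add
      · rw [abs_le]; constructor <;> linarith
      · rw [abs_le]; constructor <;> linarith
    _ ≤ 3 := by norm_num

theorem compact_oct : IsCompact Oct :=
  Metric.isCompact_of_isClosed_isBounded closed_oct
    (isBounded_iff_forall_norm_le.2 ⟨3, fun _ h => norm_oct h⟩)

theorem compact_K (n : ℕ) : IsCompact (K n) := by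
  induction n with
  | zero => exact compact_oct
  | succ n ih => exact (ih.image cont_f0).union (ih.image cont_f1)

theorem f0_zero : f0 0 = 0 := by simp [f0]
theorem f0_one : f0 1 = al := by simp [f0]
theorem f1_zero : f1 0 = al := by simp [f1]
theorem f1_one : f1 1 = 1 := by simp [f1, al, be]; ring

theorem zero_mem_K (n : ℕ) : (0 : ℂ) ∈ K n := by
  induction n with
  | zero => simp [K, Oct]; norm_num
  | succ n ih => exact Or.inl ⟨0, ih, f0_zero⟩

theorem one_mem_K (n : ℕ) : (1 : ℂ) ∈ K n := by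
  induction n with
  | zero => simp [K, Oct]; norm_num
  | succ n ih => exact Or.inr ⟨1, ih, f1_one⟩

theorem preconn_K (n : ℕ) : IsPreconnected (K n) := by
  induction n with
  | zero =>
    apply Convex.isPreconnected
    have c1 := Complex.reLm.isLinear
    intro x hx y hy a b ha hb hab
    obtain ⟨h1, h2, h3, h4, h5, h6, h7, h8⟩ := hx
    obtain ⟨k1, k2, k3, k4, k5, k6, k7, k8⟩ := hy
    have hb' : b = 1 - a := by linarith
    subst hb'
    simp only [K, Oct, mem_setOf_eq, Complex.add_re, Complex.add_im, Complex.real_smul,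
      Complex.re_ofReal_mul, Complex.im_ofReal_mul]
    refine ⟨?_, ?_, ?_, ?_, ?_, ?_, ?_, ?_⟩ <;> nlinarith
  | succ n ih =>
    exact (ih.image f0 cont_f0.continuousOn).union al ⟨1, one_mem_K n, f0_one⟩
      ⟨0, zero_mem_K n, f1_zero⟩ (ih.image f1 cont_f1.continuousOn)

/-- The Levy dragon. -/
def L : Set ℂ := ⋂ n, K n

theorem L_sub (n : ℕ) : L ⊆ K n := iInter_subset _ n

theorem L_sub_oct : L ⊆ Oct := L_sub 0

theorem compact_L : IsCompact L :=
  (compact_K 0).of_isClosed_subset (isClosed_iInter fun n => (compact_K n).isClosed) (L_sub 0)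

theorem zero_mem_L : (0 : ℂ) ∈ L := mem_iInter.2 zero_mem_K
theorem one_mem_L : (1 : ℂ) ∈ L := mem_iInter.2 one_mem_K

theorem L_eq : L = f0 '' L ∪ f1 '' L := by
  apply Subset.antisymm
  · intro x hx
    by_cases h : ∀ n, x ∈ f0 '' (K n)
    · left
      obtain ⟨y, hy, hyx⟩ := h 0
      refine ⟨y, mem_iInter.2 fun n => ?_, hyx⟩
      obtain ⟨y', hy', hyx'⟩ := h n
      rwa [inj_f0 (hyx.trans hyx'.symm)]
    · push Not at h
      obtain ⟨m, hm⟩ := h
      right
      have h2 : ∀ n, x ∈ f1 '' (K n) := by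
        intro n
        have h3 : x ∈ K (max m n + 1) := mem_iInter.1 hx _
        rcases h3 with h3 | h3
        · exact absurd (image_mono (K_anti (le_max_left m n)) h3) hm
        · exact image_mono (K_anti (le_max_right m n)) h3
      obtain ⟨y, hy, hyx⟩ := h2 0
      refine ⟨y, mem_iInter.2 fun n => ?_, hyx⟩
      obtain ⟨y', hy', hyx'⟩ := h2 n
      rwa [inj_f1 (hyx.trans hyx'.symm)]
  · have h : F L ⊆ L := by
      apply subset_iInter
      intro n
      exact (F_mono (L_sub n)).trans (K_succ_sub n)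
    exact h

theorem preconn_L : IsPreconnected L := by
  rw [isPreconnected_iff_subset_of_fully_disjoint_closed compact_L.isClosed]
  intro u v hu hv huv hdis
  obtain ⟨U, V, hU, hV, huU, hvV, hUV⟩ := (normal_separation hu hv hdis)
  obtain ⟨n, hn⟩ := exists_subset_nhds_of_isCompact' (V := K)
    (K_anti.directed_ge) compact_K (fun n => (compact_K n).isClosed)
    (U := U ∪ V) (fun x hx => by
      rcases huv hx with h | h
      · exact Filter.mem_of_superset (hU.mem_nhds (huU h)) subset_union_left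
      · exact Filter.mem_of_superset (hV.mem_nhds (hvV h)) subset_union_right)
  rcases (isPreconnected_iff_subset_of_disjoint.1 (preconn_K n)) U V hU hV hn (by
    rw [hUV.inter_eq, inter_empty]) with h | h
  · left
    intro x hx
    rcases huv hx with h1 | h1
    · exact h1
    · exact absurd (h (L_sub n hx)) (fun h2 => disjoint_left.1 hUV h2 (hvV h1))
  · right
    intro x hx
    rcases huv hx with h1 | h1
    · exact absurd (h (L_sub n hx)) (fun h2 => disjoint_left.1 hUV (huU h1) h2)
    · exact h1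

/-- the copy of the dragon on the segment from `w` to `w + u` -/
def T (w u : ℂ) : Set ℂ := (fun z => w + u * z) '' L

theorem compact_T (w u : ℂ) : IsCompact (T w u) := compact_L.image (by fun_prop)

theorem preconn_T (w u : ℂ) : IsPreconnected (T w u) := preconn_L.image _ (by fun_prop)

theorem start_mem (w u : ℂ) : w ∈ T w u := ⟨0, zero_mem_L, by simp⟩
theorem end_mem (w u : ℂ) : w + u ∈ T w u := ⟨1, one_mem_L, by simp⟩

theorem T_split (w u : ℂ) : T w u = T w (u * al) ∪ T (w + u * al) (u * be) := by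
  unfold T
  conv_lhs => rw [L_eq]
  rw [image_union, image_image, image_image]
  congr 1
  · apply image_congr
    intro z _
    simp only [f0]; ring
  · apply image_congr
    intro z _
    simp only [f1]; ring

end

end Pool.Agent.U445.Levy
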