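import Pool.Agent.U445.Levy.Tile

/-!
# The Levy dragon has a hole
-/

set_option autoImplicit false

namespace Pool.Agent.U445.Levy

open Set Metric Complex

/-- an edge `(x, y, a, b)`: from `x + y i` to `(x + a) + (y + b) i` -/
abbrev Edge := ℤ × ℤ × ℤ × ℤ

def stepE (e : Edge) : List Edge :=
  [(e.1 - e.2.1, e.1 + e.2.1, -e.2.2.2, e.2.2.1),
   (e.1 - e.2.1 - e.2.2.2, e.1 + e.2.1 + e.2.2.1, e.2.2.1, e.2.2.2)]

def E : ℕ → List Edge
  | 0 => [(0, 0, 1, 0)]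
  | n + 1 => (E n).flatMap stepE

noncomputable section

def TE (e : Edge) : Set ℂ := T ((e.1 : ℂ) + (e.2.1 : ℂ) * I) ((e.2.2.1 : ℂ) + (e.2.2.2 : ℂ) * I)

theorem image_TE (e : Edge) : (fun z => (1 + I) * z) '' TE e = ⋃ e' ∈ stepE e, TE e' := by
  obtain ⟨x, y, a, b⟩ := e
  have hI := Complex.I_mul_I
  have h1 : ∀ w u : ℂ, (fun z => (1 + I) * z) '' T w u = T ((1 + I) * w) ((1 + I) * u) := by
    intro w u
    unfold T
    rw [image_image]
    apply image_congr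
    intro z _
    ring
  unfold TE
  rw [h1, T_split]
  simp only [stepE, List.mem_cons, List.not_mem_nil, or_false, iUnion_iUnion_eq_or_left,
    iUnion_iUnion_eq_left]
  have e1 : (1 + I) * ((x : ℂ) + y * I) = ((x - y : ℤ) : ℂ) + ((x + y : ℤ) : ℂ) * I := by
    push_cast
    linear_combination (y : ℂ) * hI
  have e2 : (1 + I) * ((a : ℂ) + b * I) * al = ((-b : ℤ) : ℂ) + (a : ℂ) * I := by
    push_cast
    simp only [al]
    linear_combination ((a : ℂ) / 2 + b + b * I / 2) * hI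
  have e3 : (1 + I) * ((a : ℂ) + b * I) * be = (a : ℂ) + (b : ℂ) * I := by
    have := be_mul
    linear_combination ((a : ℂ) + b * I) * this
  have e4 : (1 + I) * ((x : ℂ) + y * I) + (1 + I) * ((a : ℂ) + b * I) * al =
      ((x - y - b : ℤ) : ℂ) + ((x + y + a : ℤ) : ℂ) * I := by
    rw [e1, e2]
    push_cast
    ring
  rw [e4, e3, e2, e1]

theorem image_pow (n : ℕ) : (fun z => (1 + I) ^ n * z) '' L = ⋃ e ∈ E n, TE e := by
  induction n with
  | zero =>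
    simp only [pow_zero, one_mul, image_id', E, List.mem_singleton, iUnion_iUnion_eq_left, TE]
    rw [show ((0 : ℤ) : ℂ) + ((0 : ℤ) : ℂ) * I = 0 by simp,
      show ((1 : ℤ) : ℂ) + ((0 : ℤ) : ℂ) * I = 1 by simp, T_zero_one]
  | succ n ih =>
    have h : (fun z => (1 + I) ^ (n + 1) * z) '' L =
        (fun z => (1 + I) * z) '' ((fun z => (1 + I) ^ n * z) '' L) := by
      rw [image_image]
      apply image_congr
      intro z _
      ring
    rw [h, ih, image_iUnion₂]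
    ext x
    simp only [mem_iUnion, E, List.mem_flatMap, exists_prop, image_TE]
    constructor
    · rintro ⟨e, he, e', he', hx⟩
      exact ⟨e', ⟨e, he, he'⟩, hx⟩
    · rintro ⟨e', ⟨e, he, he'⟩, hx⟩
      exact ⟨e, he, e', he', hx⟩

theorem pow_eight : (1 + I) ^ 8 = 16 := by
  have hI := Complex.I_mul_I
  have h2 : (1 + I) ^ 2 = 2 * I := by linear_combination hI
  calc (1 + I) ^ 8 = ((1 + I) ^ 2) ^ 4 := by ring
    _ = 16 * (I * I) ^ 2 := by rw [h2]; ring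
    _ = 16 := by rw [hI]; ring

theorem image_sixteen : (fun z : ℂ => 16 * z) '' L = ⋃ e ∈ E 8, TE e := by
  rw [← image_pow, pow_eight]

/-- start and end points in `TE e` -/
def st (e : Edge) : ℤ × ℤ := (e.1, e.2.1)
def en (e : Edge) : ℤ × ℤ := (e.1 + e.2.2.1, e.2.1 + e.2.2.2)

def toC (v : ℤ × ℤ) : ℂ := (v.1 : ℂ) + (v.2 : ℂ) * I

theorem st_mem (e : Edge) : toC (st e) ∈ TE e := start_mem _ _

theorem en_mem (e : Edge) : toC (en e) ∈ TE e := by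
  have h := end_mem ((e.1 : ℂ) + (e.2.1 : ℂ) * I) ((e.2.2.1 : ℂ) + (e.2.2.2 : ℂ) * I)
  have h2 : toC (en e) = (e.1 : ℂ) + (e.2.1 : ℂ) * I + ((e.2.2.1 : ℂ) + (e.2.2.2 : ℂ) * I) := by
    simp only [toC, en]
    push_cast
    ring
  rw [h2]
  exact h

end

/-- two edges share an end point -/
def touch (e e' : Edge) : Prop := st e = st e' ∨ st e = en e' ∨ en e = st e' ∨ en e = en e'

instance (e e' : Edge) : Decidable (touch e e') := by unfold touch; infer_instance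

theorem touch_common {e e' : Edge} (h : touch e e') : ∃ z, z ∈ TE e ∧ z ∈ TE e' := by
  rcases h with h | h | h | h
  · exact ⟨_, st_mem e, h ▸ st_mem e'⟩
  · exact ⟨_, st_mem e, h ▸ en_mem e'⟩
  · exact ⟨_, en_mem e, h ▸ st_mem e'⟩
  · exact ⟨_, en_mem e, h ▸ en_mem e'⟩

theorem preconn_chain : ∀ l : List Edge, List.IsChain touch l →
    IsPreconnected (⋃ e ∈ l, TE e)
  | [], _ => by simp [isPreconnected_empty]
  | [e], _ => by
    simp only [List.mem_singleton, iUnion_iUnion_eq_left]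
    exact preconn_T _ _
  | e :: e' :: l, h => by
    rw [List.isChain_cons_cons] at h
    have ih := preconn_chain (e' :: l) h.2
    obtain ⟨z, hz, hz'⟩ := touch_common h.1
    have : (⋃ e'' ∈ e :: e' :: l, TE e'') = TE e ∪ ⋃ e'' ∈ e' :: l, TE e'' := by
      simp only [List.mem_cons, iUnion_iUnion_eq_or_left]
    rw [this]
    refine IsPreconnected.union z hz ?_ (preconn_T _ _) ih
    simp only [mem_iUnion]
    exact ⟨e', by simp, hz'⟩

theorem mem_TE_coords {e : Edge} {z : ℂ} (hz : z ∈ TE e) : ∃ w ∈ Oct,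
    z.re = e.1 + (e.2.2.1 * w.re - e.2.2.2 * w.im) ∧
    z.im = e.2.1 + (e.2.2.1 * w.im + e.2.2.2 * w.re) := by
  obtain ⟨w, hw, rfl⟩ := hz
  refine ⟨w, L_sub_oct hw, ?_, ?_⟩
  · simp
  · simp

def okR (e : Edge) : Prop := (e.2.2 = (1, 0) ∧ 9 ≤ e.1) ∨ (e.2.2 = (-1, 0) ∧ 10 ≤ e.1) ∨
  (e.2.2 = (0, 1) ∧ 10 ≤ e.1) ∨ (e.2.2 = (0, -1) ∧ 9 ≤ e.1)
def okU (e : Edge) : Prop := (e.2.2 = (1, 0) ∧ 10 ≤ e.2.1) ∨ (e.2.2 = (-1, 0) ∧ 11 ≤ e.2.1) ∨
  (e.2.2 = (0, 1) ∧ 10 ≤ e.2.1) ∨ (e.2.2 = (0, -1) ∧ 11 ≤ e.2.1)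
def okL (e : Edge) : Prop := (e.2.2 = (1, 0) ∧ e.1 ≤ 6) ∨ (e.2.2 = (-1, 0) ∧ e.1 ≤ 7) ∨
  (e.2.2 = (0, 1) ∧ e.1 ≤ 7) ∨ (e.2.2 = (0, -1) ∧ e.1 ≤ 6)
def okD (e : Edge) : Prop := (e.2.2 = (1, 0) ∧ e.2.1 ≤ 7) ∨ (e.2.2 = (-1, 0) ∧ e.2.1 ≤ 8) ∨
  (e.2.2 = (0, 1) ∧ e.2.1 ≤ 7) ∨ (e.2.2 = (0, -1) ∧ e.2.1 ≤ 8)

instance (e : Edge) : Decidable (okR e) := by unfold okR; infer_instance
instance (e : Edge) : Decidable (okU e) := by unfold okU; infer_instance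
instance (e : Edge) : Decidable (okL e) := by unfold okL; infer_instance
instance (e : Edge) : Decidable (okD e) := by unfold okD; infer_instance

theorem okR_spec {e : Edge} (h : okR e) {z : ℂ} (hz : z ∈ TE e) : 8 < z.re := by
  obtain ⟨w, ⟨h1, h2, h3, h4, h5, h6, h7, h8⟩, hre, him⟩ := mem_TE_coords hz
  obtain ⟨x, y, a, b⟩ := e
  simp only at hre him
  rcases h with ⟨hu, hx⟩ | ⟨hu, hx⟩ | ⟨hu, hx⟩ | ⟨hu, hx⟩ <;>
  · simp only [Prod.mk.injEq] at hu hx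
    obtain ⟨rfl, rfl⟩ := hu
    have hx' := (Int.cast_le (R := ℝ)).2 hx
    push_cast at hre hx'
    linarith

theorem okU_spec {e : Edge} (h : okU e) {z : ℂ} (hz : z ∈ TE e) : 9 < z.im := by
  obtain ⟨w, ⟨h1, h2, h3, h4, h5, h6, h7, h8⟩, hre, him⟩ := mem_TE_coords hz
  obtain ⟨x, y, a, b⟩ := e
  simp only at hre him
  rcases h with ⟨hu, hx⟩ | ⟨hu, hx⟩ | ⟨hu, hx⟩ | ⟨hu, hx⟩ <;>
  · simp only [Prod.mk.injEq] at hu hx
    obtain ⟨rfl, rfl⟩ := hu
    have hx' := (Int.cast_le (R := ℝ)).2 hx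
    push_cast at him hx'
    linarith

theorem okL_spec {e : Edge} (h : okL e) {z : ℂ} (hz : z ∈ TE e) : z.re < 8 := by
  obtain ⟨w, ⟨h1, h2, h3, h4, h5, h6, h7, h8⟩, hre, him⟩ := mem_TE_coords hz
  obtain ⟨x, y, a, b⟩ := e
  simp only at hre him
  rcases h with ⟨hu, hx⟩ | ⟨hu, hx⟩ | ⟨hu, hx⟩ | ⟨hu, hx⟩ <;>
  · simp only [Prod.mk.injEq] at hu hx
    obtain ⟨rfl, rfl⟩ := hu
    have hx' := (Int.cast_le (R := ℝ)).2 hx
    push_cast at hre hx'
    linarith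

theorem okD_spec {e : Edge} (h : okD e) {z : ℂ} (hz : z ∈ TE e) : z.im < 9 := by
  obtain ⟨w, ⟨h1, h2, h3, h4, h5, h6, h7, h8⟩, hre, him⟩ := mem_TE_coords hz
  obtain ⟨x, y, a, b⟩ := e
  simp only at hre him
  rcases h with ⟨hu, hx⟩ | ⟨hu, hx⟩ | ⟨hu, hx⟩ | ⟨hu, hx⟩ <;>
  · simp only [Prod.mk.injEq] at hu hx
    obtain ⟨rfl, rfl⟩ := hu
    have hx' := (Int.cast_le (R := ℝ)).2 hx
    push_cast at him hx'
    linarith

def B1 : List Edge := [(11, 9, 0, -1), (11, 10, 0, -1)]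
def B2 : List Edge := [(11, 11, 0, -1), (11, 12, 0, -1), (10, 12, 1, 0), (10, 13, 0, -1),
  (9, 13, 1, 0), (8, 13, 1, 0), (7, 13, 1, 0)]
def B3 : List Edge := [(6, 13, 1, 0), (6, 12, 0, 1), (5, 12, 1, 0), (5, 11, 0, 1), (5, 10, 0, 1),
  (5, 9, 0, 1), (5, 8, 0, 1)]
def B4 : List Edge := [(6, 8, -1, 0), (6, 7, 0, 1), (7, 7, -1, 0), (8, 7, -1, 0), (9, 7, -1, 0),
  (10, 7, -1, 0), (10, 8, 0, -1), (11, 8, -1, 0)]

theorem B1_ok : (∀ e ∈ B1, e ∈ E 8 ∧ okR e) ∧ List.IsChain touch B1 := by decide +kernel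
theorem B2_ok : (∀ e ∈ B2, e ∈ E 8 ∧ okU e) ∧ List.IsChain touch B2 := by decide +kernel
theorem B3_ok : (∀ e ∈ B3, e ∈ E 8 ∧ okL e) ∧ List.IsChain touch B3 := by decide +kernel
theorem B4_ok : (∀ e ∈ B4, e ∈ E 8 ∧ okD e) ∧ List.IsChain touch B4 := by decide +kernel

theorem avoid : ∀ e ∈ E 8, (e.2.2.1 * e.2.2.1 + e.2.2.2 * e.2.2.2 = 1) ∧
    ¬ (0 ≤ e.2.2.1 * (8 - e.1) + e.2.2.2 * (9 - e.2.1) ∧
      e.2.2.1 * (8 - e.1) + e.2.2.2 * (9 - e.2.1) ≤ 1 ∧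
      0 ≤ e.2.2.1 * (9 - e.2.1) - e.2.2.2 * (8 - e.1) ∧
      e.2.2.1 * (9 - e.2.1) - e.2.2.2 * (8 - e.1) ≤ 1) := by decide +kernel

/-- the point in the hole -/
noncomputable def pt : ℂ := 1 / 2 + 9 / 16 * I

theorem pt_re : pt.re = 1 / 2 := by simp [pt]
theorem pt_im : pt.im = 9 / 16 := by simp [pt]

theorem pt_notMem : pt ∉ L := by
  intro h
  have h1 : (16 * pt : ℂ) ∈ ⋃ e ∈ E 8, TE e := by
    rw [← image_sixteen]
    exact ⟨pt, h, rfl⟩
  simp only [mem_iUnion] at h1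
  obtain ⟨e, he, hz⟩ := h1
  obtain ⟨w, ⟨h1, h2, h3, h4, h5, h6, h7, h8⟩, hre, him⟩ := mem_TE_coords hz
  obtain ⟨hn, hb⟩ := avoid e he
  obtain ⟨x, y, a, b⟩ := e
  simp only at hre him hn hb
  have p1 : (16 * pt).re = 8 := by simp [pt_re]; norm_num
  have p2 : (16 * pt).im = 9 := by simp [pt_im]; norm_num
  rw [p1] at hre
  rw [p2] at him
  have hn' : (a : ℝ) * a + b * b = 1 := by exact_mod_cast hn
  have q1 : ((a * (8 - x) + b * (9 - y) : ℤ) : ℝ) = w.re := by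
    push_cast
    linear_combination (a : ℝ) * hre + (b : ℝ) * him + w.re * hn'
  have q2 : ((a * (9 - y) - b * (8 - x) : ℤ) : ℝ) = w.im := by
    push_cast
    linear_combination (a : ℝ) * him - (b : ℝ) * hre + w.im * hn'
  apply hb
  refine ⟨?_, ?_, ?_, ?_⟩
  · have : ((-1 : ℤ) : ℝ) < ((a * (8 - x) + b * (9 - y) : ℤ) : ℝ) := by
      rw [q1]; push_cast; linarith
    have := Int.cast_lt.1 this
    omega
  · have : ((a * (8 - x) + b * (9 - y) : ℤ) : ℝ) < ((2 : ℤ) : ℝ) := by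
      rw [q1]; push_cast; linarith
    have := Int.cast_lt.1 this
    omega
  · have : ((-1 : ℤ) : ℝ) < ((a * (9 - y) - b * (8 - x) : ℤ) : ℝ) := by
      rw [q2]; push_cast; linarith
    have := Int.cast_lt.1 this
    omega
  · have : ((a * (9 - y) - b * (8 - x) : ℤ) : ℝ) < ((2 : ℤ) : ℝ) := by
      rw [q2]; push_cast; linarith
    have := Int.cast_lt.1 this
    omega

/-- the pieces of the dragon of a list of edges, scaled back -/
def SS (B : List Edge) : Set ℂ := (fun z : ℂ => z / 16) '' ⋃ e ∈ B, TE e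

theorem SS_preconn {B : List Edge} (h : List.IsChain touch B) : IsPreconnected (SS B) :=
  (preconn_chain B h).image _ (by fun_prop)

theorem SS_sub {B : List Edge} (h : ∀ e ∈ B, e ∈ E 8) : SS B ⊆ L := by
  rintro _ ⟨z, hz, rfl⟩
  have h1 : z ∈ (fun z : ℂ => 16 * z) '' L := by
    rw [image_sixteen]
    simp only [mem_iUnion] at hz ⊢
    obtain ⟨e, he, hz⟩ := hz
    exact ⟨e, h e he, hz⟩
  obtain ⟨w, hw, rfl⟩ := h1
  simpa using hw

theorem SS_re {B : List Edge} {P : ℂ → Prop} (h : ∀ e ∈ B, ∀ z ∈ TE e, P z) :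
    ∀ z ∈ SS B, P (16 * z) := by
  rintro _ ⟨z, hz, rfl⟩
  simp only [mem_iUnion] at hz
  obtain ⟨e, he, hz⟩ := hz
  have : (16 * (z / 16) : ℂ) = z := by ring
  simp only [this]
  exact h e he z hz

theorem SS_mem {B : List Edge} {e : Edge} (he : e ∈ B) {z : ℂ} (hz : z ∈ TE e) :
    z / 16 ∈ SS B := by
  refine ⟨z, ?_, rfl⟩
  simp only [mem_iUnion]
  exact ⟨e, he, hz⟩

theorem hole : Bornology.IsBounded (connectedComponentIn Lᶜ pt) := by
  have r1 : ∀ z : ℂ, (16 * z).re = 16 * z.re := fun z => by simp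
  have r2 : ∀ z : ℂ, (16 * z).im = 16 * z.im := fun z => by simp
  refine isBounded_component (S1 := SS B1) (S2 := SS B2) (S3 := SS B3) (S4 := SS B4)
    (v1 := toC (11, 10) / 16) (v2 := toC (7, 13) / 16) (v3 := toC (5, 8) / 16)
    (v4 := toC (11, 8) / 16) compact_L
    (SS_preconn B1_ok.2) (SS_preconn B2_ok.2) (SS_preconn B3_ok.2) (SS_preconn B4_ok.2)
    (SS_sub fun e he => (B1_ok.1 e he).1) (SS_sub fun e he => (B2_ok.1 e he).1)
    (SS_sub fun e he => (B3_ok.1 e he).1) (SS_sub fun e he => (B4_ok.1 e he).1)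
    ?_ ?_ ?_ ?_ ?_ ?_ ?_ ?_ ?_ ?_ ?_ ?_
  · intro z hz
    have := SS_re (P := fun z => 8 < z.re) (fun e he z hz => okR_spec (B1_ok.1 e he).2 hz) z hz
    simp only [r1] at this
    rw [pt_re]; linarith
  · intro z hz
    have := SS_re (P := fun z => 9 < z.im) (fun e he z hz => okU_spec (B2_ok.1 e he).2 hz) z hz
    simp only [r2] at this
    rw [pt_im]; linarith
  · intro z hz
    have := SS_re (P := fun z => z.re < 8) (fun e he z hz => okL_spec (B3_ok.1 e he).2 hz) z hz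
    simp only [r1] at this
    rw [pt_re]; linarith
  · intro z hz
    have := SS_re (P := fun z => z.im < 9) (fun e he z hz => okD_spec (B4_ok.1 e he).2 hz) z hz
    simp only [r2] at this
    rw [pt_im]; linarith
  · exact SS_mem (e := (11, 10, 0, -1)) (by decide) (st_mem (11, 10, 0, -1))
  · exact SS_mem (e := (11, 11, 0, -1)) (by decide) (en_mem (11, 11, 0, -1))
  · exact SS_mem (e := (7, 13, 1, 0)) (by decide) (st_mem (7, 13, 1, 0))
  · exact SS_mem (e := (6, 13, 1, 0)) (by decide) (en_mem (6, 13, 1, 0))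
  · exact SS_mem (e := (5, 8, 0, 1)) (by decide) (st_mem (5, 8, 0, 1))
  · exact SS_mem (e := (6, 8, -1, 0)) (by decide) (en_mem (6, 8, -1, 0))
  · exact SS_mem (e := (11, 8, -1, 0)) (by decide) (st_mem (11, 8, -1, 0))
  · exact SS_mem (e := (11, 9, 0, -1)) (by decide) (en_mem (11, 9, 0, -1))

end Pool.Agent.U445.Levy
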