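import Pool.Agent.U445.Levy.Dragon

/-!
# The Levy dragon is a tile
-/

set_option autoImplicit false

namespace Pool.Agent.U445.Levy

open Set Metric Complex MeasureTheory

noncomputable section

def G : Set ℂ := {z | ∃ x y : ℤ, z = x + y * I}

def uu : Fin 4 → ℂ := ![1, I, -1, -I]

theorem uu_ne (k : Fin 4) : uu k ≠ 0 := by
  fin_cases k <;> simp [uu]

theorem norm_uu (k : Fin 4) : ‖uu k‖ = 1 := by
  fin_cases k <;> simp [uu]

def Grid : Set ℂ := ⋃ i : ℤ × ℤ × Fin 4, T (i.1 + i.2.1 * I) (uu i.2.2)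

theorem be_mul : be * (1 + I) = 1 := by
  have h := Complex.I_mul_I
  simp only [be]
  linear_combination (-1/2 : ℂ) * h

theorem I_be : I * be = al := by
  have h := Complex.I_mul_I
  simp only [be, al]
  linear_combination (-1/2 : ℂ) * h

theorem even_div {x y : ℤ} (h : (x + y) % 2 = 0) :
    ∃ z ∈ G, (x + y * I : ℂ) = (1 + I) * z := by
  obtain ⟨k, hk⟩ : ∃ k, x + y = 2 * k := ⟨(x + y) / 2, by omega⟩
  refine ⟨(k : ℤ) + ((y - k : ℤ) : ℂ) * I, ⟨k, y - k, rfl⟩, ?_⟩
  have hx : (x : ℂ) = 2 * k - y := by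
    have : ((x + y : ℤ) : ℂ) = ((2 * k : ℤ) : ℂ) := by rw [hk]
    push_cast at this
    linear_combination this
  have h := Complex.I_mul_I
  push_cast
  rw [hx]
  linear_combination (-(y : ℂ) + k) * h

theorem parity {z : ℂ} (hz : z ∈ G) :
    (∃ z' ∈ G, z = (1 + I) * z') ∨ (∀ k, ∃ z' ∈ G, z - I * uu k = (1 + I) * z') := by
  obtain ⟨x, y, rfl⟩ := hz
  have h := Complex.I_mul_I
  rcases Int.emod_two_eq_zero_or_one (x + y) with h0 | h1
  · exact Or.inl (even_div h0)
  · right
    intro k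
    fin_cases k
    · obtain ⟨z', hz', he⟩ := even_div (x := x) (y := y - 1) (by omega)
      refine ⟨z', hz', ?_⟩
      rw [← he]
      simp [uu]; ring
    · obtain ⟨z', hz', he⟩ := even_div (x := x + 1) (y := y) (by omega)
      refine ⟨z', hz', ?_⟩
      rw [← he]
      simp [uu]; ring
    · obtain ⟨z', hz', he⟩ := even_div (x := x) (y := y + 1) (by omega)
      refine ⟨z', hz', ?_⟩
      rw [← he]
      simp [uu]; ring
    · obtain ⟨z', hz', he⟩ := even_div (x := x - 1) (y := y) (by omega)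
      refine ⟨z', hz', ?_⟩
      rw [← he]
      simp [uu]; ring

theorem neg_I_uu (k : Fin 4) : ∃ j, -I * uu k = uu j := by
  fin_cases k
  · exact ⟨3, by simp [uu]⟩
  · exact ⟨0, by simp [uu]⟩
  · exact ⟨1, by simp [uu]⟩
  · exact ⟨2, by simp [uu]⟩

theorem sub_grid (n : ℕ) : ∀ z ∈ G, ∀ k, T (z * be ^ n) (uu k * be ^ n) ⊆ Grid := by
  induction n with
  | zero =>
    rintro z ⟨x, y, rfl⟩ k
    simp only [pow_zero, mul_one]
    exact subset_iUnion (fun i : ℤ × ℤ × Fin 4 => T (i.1 + i.2.1 * I) (uu i.2.2)) (x, y, k)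
  | succ n ih =>
    intro z hz k
    rcases parity hz with ⟨z', hz', he⟩ | hodd
    · obtain ⟨j, hj⟩ := neg_I_uu k
      refine Subset.trans ?_ (ih z' hz' j)
      rw [T_split (z' * be ^ n) (uu j * be ^ n)]
      refine Subset.trans ?_ subset_union_left
      have e1 : z * be ^ (n + 1) = z' * be ^ n := by
        rw [he, pow_succ]
        linear_combination z' * be ^ n * be_mul
      have e2 : uu k * be ^ (n + 1) = uu j * be ^ n * al := by
        rw [← hj, ← I_be, pow_succ]
        have h := Complex.I_mul_I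
        linear_combination (uu k * be ^ n * be) * h
      rw [e1, e2]
    · obtain ⟨z', hz', he⟩ := hodd k
      refine Subset.trans ?_ (ih z' hz' k)
      rw [T_split (z' * be ^ n) (uu k * be ^ n)]
      refine Subset.trans ?_ subset_union_right
      have e2 : uu k * be ^ (n + 1) = uu k * be ^ n * be := by ring
      have e1 : z * be ^ (n + 1) = z' * be ^ n + uu k * be ^ n * al := by
        rw [← I_be]
        linear_combination be ^ (n + 1) * he + z' * be ^ n * be_mul
      rw [e1, e2]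

theorem norm_be : ‖be‖ ^ 2 = 1 / 2 := by
  rw [← Complex.normSq_eq_norm_sq]
  simp [be, Complex.normSq_apply]
  norm_num

theorem norm_al : ‖al‖ ^ 2 = 1 / 2 := by
  rw [← Complex.normSq_eq_norm_sq]
  simp [al, Complex.normSq_apply]
  norm_num

theorem norm_eq : ‖al‖ = ‖be‖ := by
  have h1 := norm_al
  have h2 := norm_be
  nlinarith [norm_nonneg al, norm_nonneg be, norm_pos_iff.2 al_ne, norm_pos_iff.2 be_ne]

theorem norm_be_lt : ‖be‖ < 1 := by
  have h2 := norm_be
  nlinarith [norm_nonneg be]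

theorem tendsto_pow : Filter.Tendsto (fun n : ℕ => ‖be‖ ^ n) Filter.atTop (nhds 0) :=
  tendsto_pow_atTop_nhds_zero_of_lt_one (norm_nonneg _) norm_be_lt

theorem dense_grid : closure Grid = univ := by
  rw [← dense_iff_closure_eq]
  rw [Metric.dense_iff]
  intro w ε hε
  obtain ⟨n, hn⟩ := ((tendsto_order.1 tendsto_pow).2 ε hε).exists
  set q : ℂ := w / be ^ n with hq
  have hb : be ^ n ≠ 0 := pow_ne_zero _ be_ne
  set z : ℂ := (round q.re : ℂ) + (round q.im : ℂ) * I with hz
  have hzG : z ∈ G := ⟨round q.re, round q.im, hz⟩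
  refine ⟨z * be ^ n, ?_, sub_grid n z hzG 0 (start_mem _ _)⟩
  rw [mem_ball, dist_comm, dist_eq_norm]
  have h1 : w - z * be ^ n = (q - z) * be ^ n := by
    rw [hq]
    field_simp
  rw [h1, norm_mul, norm_pow]
  have h2 : ‖q - z‖ ≤ 1 := by
    calc ‖q - z‖ ≤ |(q - z).re| + |(q - z).im| := Complex.norm_le_abs_re_add_abs_im _
      _ ≤ 1 / 2 + 1 / 2 := by
        apply add_le_add
        · have := abs_sub_round q.re
          simpa [hz] using this
        · have := abs_sub_round q.im
          simpa [hz] using this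
      _ = 1 := by norm_num
  calc ‖q - z‖ * ‖be‖ ^ n ≤ 1 * ‖be‖ ^ n := by gcongr
    _ < ε := by rw [one_mul]; exact hn

theorem locFin : LocallyFinite (fun i : ℤ × ℤ × Fin 4 => T (i.1 + i.2.1 * I) (uu i.2.2)) := by
  intro p
  refine ⟨ball p 1, ball_mem_nhds p one_pos, ?_⟩
  apply Set.Finite.subset (Set.Finite.prod (Set.finite_Icc (⌊p.re⌋ - 5) (⌈p.re⌉ + 5))
    (Set.Finite.prod (Set.finite_Icc (⌊p.im⌋ - 5) (⌈p.im⌉ + 5)) (Set.finite_univ (α := Fin 4))))
  rintro ⟨x, y, k⟩ ⟨z, ⟨z', hz', rfl⟩, hzb⟩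
  simp only at hzb
  rw [mem_ball, dist_eq_norm] at hzb
  have h1 : ‖uu k * z'‖ ≤ 3 := by
    rw [norm_mul, norm_uu, one_mul]
    exact norm_oct (L_sub_oct hz')
  have h2 : ‖(x + y * I : ℂ) - p‖ ≤ 4 := by
    have : (x + y * I : ℂ) - p = (x + y * I + uu k * z' - p) - uu k * z' := by ring
    rw [this]
    calc _ ≤ ‖x + y * I + uu k * z' - p‖ + ‖uu k * z'‖ := norm_sub_le _ _
      _ ≤ 4 := by linarith
  have h3 : |(x : ℝ) - p.re| ≤ 4 := by
    have := Complex.abs_re_le_norm ((x + y * I : ℂ) - p)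
    simp at this
    linarith
  have h4 : |(y : ℝ) - p.im| ≤ 4 := by
    have := Complex.abs_im_le_norm ((x + y * I : ℂ) - p)
    simp at this
    linarith
  rw [abs_le] at h3 h4
  have a1 := Int.floor_le p.re
  have a2 := Int.le_ceil p.re
  have a3 := Int.floor_le p.im
  have a4 := Int.le_ceil p.im
  refine ⟨⟨?_, ?_⟩, ⟨?_, ?_⟩, mem_univ _⟩
  · have : ((⌊p.re⌋ - 5 : ℤ) : ℝ) ≤ (x : ℝ) := by push_cast; linarith
    exact_mod_cast this
  · have : (x : ℝ) ≤ ((⌈p.re⌉ + 5 : ℤ) : ℝ) := by push_cast; linarith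
    exact_mod_cast this
  · have : ((⌊p.im⌋ - 5 : ℤ) : ℝ) ≤ (y : ℝ) := by push_cast; linarith
    exact_mod_cast this
  · have : (y : ℝ) ≤ ((⌈p.im⌉ + 5 : ℤ) : ℝ) := by push_cast; linarith
    exact_mod_cast this

theorem grid_univ : Grid = univ := by
  have : IsClosed Grid := locFin.isClosed_iUnion fun i => (compact_T _ _).isClosed
  rw [← this.closure_eq, dense_grid]

/-- the similarity `z ↦ w + u z` -/
def hom (w u : ℂ) (hu : u ≠ 0) : ℂ ≃ₜ ℂ := (Homeomorph.mulLeft₀ u hu).trans (Homeomorph.addLeft w)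

theorem T_eq_hom (w u : ℂ) (hu : u ≠ 0) : T w u = hom w u hu '' L := rfl

theorem interior_T (w u : ℂ) (hu : u ≠ 0) : interior (T w u) = hom w u hu '' interior L := by
  rw [T_eq_hom w u hu, Homeomorph.image_interior]

theorem interior_L_nonempty : (interior L).Nonempty := by
  obtain ⟨i, hi⟩ := nonempty_interior_of_iUnion_of_closed
    (f := fun i : ℤ × ℤ × Fin 4 => T (i.1 + i.2.1 * I) (uu i.2.2))
    (fun i => (compact_T _ _).isClosed) grid_univ
  rw [interior_T _ _ (uu_ne _)] at hi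
  exact hi.of_image

theorem T_zero_one : T 0 1 = L := by
  unfold T
  simp

theorem small_piece (n : ℕ) : ∀ x ∈ L, ∃ w u : ℂ, x ∈ T w u ∧ T w u ⊆ L ∧ u ≠ 0 ∧
    ‖u‖ = ‖be‖ ^ n := by
  induction n with
  | zero =>
    intro x hx
    refine ⟨0, 1, ?_, ?_, one_ne_zero, by simp⟩
    · rwa [T_zero_one]
    · rw [T_zero_one]
  | succ n ih =>
    intro x hx
    obtain ⟨w, u, h1, h2, h3, h4⟩ := ih x hx
    rw [T_split] at h1 h2
    rcases h1 with h1 | h1
    · exact ⟨w, u * al, h1, subset_union_left.trans h2, mul_ne_zero h3 al_ne, by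
        rw [norm_mul, h4, norm_eq, pow_succ]⟩
    · exact ⟨w + u * al, u * be, h1, subset_union_right.trans h2, mul_ne_zero h3 be_ne, by
        rw [norm_mul, h4, pow_succ]⟩

theorem closure_interior_L : closure (interior L) = L := by
  apply Subset.antisymm
  · exact (closure_mono interior_subset).trans compact_L.isClosed.closure_eq.subset
  · intro x hx
    rw [Metric.mem_closure_iff]
    intro ε hε
    obtain ⟨y0, hy0⟩ := interior_L_nonempty
    obtain ⟨n, hn⟩ := ((tendsto_order.1 tendsto_pow).2 (ε / 7) (by positivity)).exists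
    obtain ⟨w, u, h1, h2, h3, h4⟩ := small_piece n x hx
    obtain ⟨z, hz, rfl⟩ := h1
    refine ⟨w + u * y0, ?_, ?_⟩
    · apply interior_mono h2
      rw [interior_T w u h3]
      exact ⟨y0, hy0, rfl⟩
    · rw [dist_eq_norm]
      have e : w + u * z - (w + u * y0) = u * (z - y0) := by ring
      simp only [e, norm_mul, h4]
      have h5 : ‖z - y0‖ ≤ 6 := by
        calc ‖z - y0‖ ≤ ‖z‖ + ‖y0‖ := norm_sub_le _ _
          _ ≤ 3 + 3 := add_le_add (norm_oct (L_sub_oct hz))
            (norm_oct (L_sub_oct (interior_subset hy0)))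
          _ = 6 := by norm_num
      calc ‖be‖ ^ n * ‖z - y0‖ ≤ ‖be‖ ^ n * 6 := by gcongr
        _ < ε := by nlinarith [pow_nonneg (norm_nonneg be) n]

theorem volume_T (w u : ℂ) : volume (T w u) = ENNReal.ofReal (Complex.normSq u) * volume L := by
  have h1 : T w u = (fun z => w + z) '' ((Algebra.lmul ℝ ℂ u) '' L) := by
    rw [image_image]; rfl
  rw [h1, image_add_left, measure_preimage_add]
  have h2 := Measure.addHaar_image_linearMap (volume : Measure ℂ) (Algebra.lmul ℝ ℂ u) L
  have h3 : LinearMap.det (Algebra.lmul ℝ ℂ u) = Complex.normSq u := by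
    rw [← Algebra.norm_apply, Algebra.norm_complex_apply]
  rw [h3, abs_of_nonneg (Complex.normSq_nonneg u)] at h2
  exact h2

theorem L_split : L = T 0 al ∪ T al be := by
  have := T_split 0 1
  rwa [T_zero_one, one_mul, one_mul, zero_add] at this

theorem disjoint_interiors : Disjoint (interior (T 0 al)) (interior (T al be)) := by
  have h0 : volume L ≠ ⊤ := compact_L.measure_lt_top.ne
  have ha : Complex.normSq al = 1 / 2 := by
    rw [Complex.normSq_eq_norm_sq, norm_al]
  have hb : Complex.normSq be = 1 / 2 := by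
    rw [Complex.normSq_eq_norm_sq, norm_be]
  have h1 := measure_union_add_inter (μ := (volume : Measure ℂ)) (T 0 al)
    (compact_T al be).measurableSet
  rw [← L_split, volume_T, volume_T, ha, hb, ← add_mul,
    ← ENNReal.ofReal_add (by norm_num) (by norm_num)] at h1
  norm_num at h1
  have h2 : volume (T 0 al ∩ T al be) = 0 := by
    have h3 : volume L + volume (T 0 al ∩ T al be) = volume L + 0 := by rw [h1, add_zero]
    exact (ENNReal.add_right_inj h0).1 h3
  rw [Set.disjoint_iff_inter_eq_empty]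
  rw [← (isOpen_interior.inter isOpen_interior).measure_eq_zero_iff (volume : Measure ℂ)]
  exact measure_mono_null (inter_subset_inter interior_subset interior_subset) h2

end

end Pool.Agent.U445.Levy
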