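import Mathlib

/-!
# A criterion for holes of planar compact sets
-/

set_option autoImplicit false

namespace Pool.Agent.U445.Levy

open Set Metric

/-- the function `z - q` has a continuous logarithm on `K` -/
def HasLog (K : Set ℂ) (q : ℂ) : Prop :=
  ∃ g : ℂ → ℂ, ContinuousOn g K ∧ ∀ z ∈ K, Complex.exp (g z) = z - q

theorem one_add_slit {w : ℂ} (hw : ‖w‖ < 1) : 1 + w ∈ Complex.slitPlane := by
  left
  have := Complex.abs_re_le_norm w
  have h2 := abs_lt.1 (lt_of_le_of_lt this hw)
  simp only [Complex.add_re, Complex.one_re]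
  linarith [h2.1]

theorem hasLog_near {K : Set ℂ} {q q' : ℂ} (h : HasLog K q)
    (hq : ∀ z ∈ K, ‖q' - q‖ < ‖z - q‖) : HasLog K q' := by
  obtain ⟨g, hg, he⟩ := h
  have hne : ∀ z ∈ K, z - q ≠ 0 := fun z hz h0 => by
    have := hq z hz
    rw [h0, norm_zero] at this
    exact absurd this (not_lt.2 (norm_nonneg _))
  have hs : ∀ z ∈ K, 1 + (q - q') / (z - q) ∈ Complex.slitPlane := fun z hz => by
    apply one_add_slit
    rw [norm_div, div_lt_one (norm_pos_iff.2 (hne z hz)), norm_sub_rev]
    exact hq z hz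
  refine ⟨fun z => g z + Complex.log (1 + (q - q') / (z - q)), ?_, ?_⟩
  · refine hg.add (ContinuousOn.clog ?_ hs)
    exact continuousOn_const.add (continuousOn_const.div
      (continuousOn_id.sub continuousOn_const) hne)
  · intro z hz
    rw [Complex.exp_add, he z hz, Complex.exp_log (Complex.slitPlane_ne_zero (hs z hz))]
    field_simp [hne z hz]
    ring

theorem hasLog_far {K : Set ℂ} {q : ℂ} (hq : ∀ z ∈ K, ‖z‖ < ‖q‖) : HasLog K q := by
  rcases K.eq_empty_or_nonempty with rfl | ⟨z0, hz0⟩
  · exact ⟨fun _ => 0, continuousOn_const, by simp⟩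
  have hq0 : q ≠ 0 := by
    intro h
    have := hq z0 hz0
    rw [h, norm_zero] at this
    exact absurd this (not_lt.2 (norm_nonneg _))
  have hs : ∀ z ∈ K, 1 + (-z / q) ∈ Complex.slitPlane := fun z hz => by
    apply one_add_slit
    rw [norm_div, norm_neg, div_lt_one (norm_pos_iff.2 hq0)]
    exact hq z hz
  refine ⟨fun z => Complex.log (-q) + Complex.log (1 + (-z / q)), ?_, ?_⟩
  · refine continuousOn_const.add (ContinuousOn.clog ?_ hs)
    exact continuousOn_const.add (continuousOn_id.neg.div_const _)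
  · intro z hz
    rw [Complex.exp_add, Complex.exp_log (neg_ne_zero.2 hq0),
      Complex.exp_log (Complex.slitPlane_ne_zero (hs z hz))]
    field_simp
    ring

theorem isOpen_hasLog {K : Set ℂ} (hK : IsClosed K) (hne : K.Nonempty) (P : Prop → Prop)
    : IsOpen {q | q ∈ Kᶜ ∧ P (HasLog K q)} := by
  rw [Metric.isOpen_iff]
  rintro q ⟨hq, hp⟩
  have hd : 0 < infDist q K := (hK.notMem_iff_infDist_pos hne).1 hq
  refine ⟨infDist q K / 2, by linarith, ?_⟩
  intro q' hq'
  rw [mem_ball] at hq'
  have h1 : ∀ z ∈ K, infDist q K ≤ dist q z := fun z hz => infDist_le_dist_of_mem hz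
  have hlt : ∀ z ∈ K, infDist q K / 2 < dist q' z := fun z hz => by
    have := dist_triangle_left q z q'
    linarith [h1 z hz]
  have hiff : HasLog K q' ↔ HasLog K q := by
    constructor
    · intro h
      apply hasLog_near h
      intro z hz
      have := hlt z hz
      rw [← dist_eq_norm, ← dist_eq_norm, dist_comm z q', dist_comm q q']
      linarith
    · intro h
      apply hasLog_near h
      intro z hz
      have := h1 z hz
      rw [← dist_eq_norm, ← dist_eq_norm, dist_comm z q]
      linarith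
  refine ⟨?_, ?_⟩
  · intro hqK
    have := hlt q' hqK
    rw [dist_self] at this
    linarith
  · rwa [hiff]

/-- If the component of `p` in the complement of the compact set `K` is unbounded then `z - p`
has a continuous logarithm on `K`. -/
theorem hasLog_of_unbounded {K : Set ℂ} (hK : IsCompact K) (hne : K.Nonempty) {p : ℂ}
    (hub : ¬ Bornology.IsBounded (connectedComponentIn Kᶜ p)) : HasLog K p := by
  obtain ⟨R, hR⟩ := hK.isBounded.exists_norm_le
  have hp : p ∈ Kᶜ := by
    by_contra h
    apply hub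
    rw [connectedComponentIn_eq_empty h]
    exact Bornology.isBounded_empty
  have hex : ∃ q ∈ connectedComponentIn Kᶜ p, R < ‖q‖ := by
    by_contra hcon
    push Not at hcon
    exact hub (isBounded_iff_forall_norm_le.2 ⟨R, hcon⟩)
  obtain ⟨q, hqC, hqR⟩ := hex
  have hsub := connectedComponentIn_subset Kᶜ p
  have hA := isOpen_hasLog hK.isClosed hne (fun P => P)
  have hB := isOpen_hasLog hK.isClosed hne (fun P => ¬ P)
  have hdis : Disjoint {q | q ∈ Kᶜ ∧ HasLog K q} {q | q ∈ Kᶜ ∧ ¬ HasLog K q} := by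
    rw [Set.disjoint_left]
    rintro x ⟨_, h1⟩ ⟨_, h2⟩
    exact h2 h1
  have := (isPreconnected_connectedComponentIn (F := Kᶜ) (x := p)).subset_left_of_subset_union
    hA hB hdis (fun x hx => by
      by_cases h : HasLog K x
      · exact Or.inl ⟨hsub hx, h⟩
      · exact Or.inr ⟨hsub hx, h⟩)
    ⟨q, hqC, hsub hqC, hasLog_far fun z hz => lt_of_le_of_lt (hR z hz) hqR⟩
  exact (this (mem_connectedComponentIn hp)).2

/-- The argument increases along a connected set in a half plane. -/
theorem arg_lt {S : Set ℂ} (hS : IsPreconnected S) {p ω : ℂ} {g : ℂ → ℂ}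
    (hg : ContinuousOn g S) (he : ∀ z ∈ S, Complex.exp (g z) = z - p)
    (hh : ∀ z ∈ S, 0 < (ω * (z - p)).re) {v v' : ℂ} (hv : v ∈ S) (hv' : v' ∈ S)
    (h1 : (ω * (v - p)).im < 0) (h2 : 0 < (ω * (v' - p)).im) : (g v).im < (g v').im := by
  have hsl : ∀ z ∈ S, ω * (z - p) ∈ Complex.slitPlane := fun z hz => Or.inl (hh z hz)
  set H : ℂ → ℂ := fun z => g z - Complex.log (ω * (z - p)) with hH
  have hHc : ContinuousOn H S := by
    refine hg.sub (ContinuousOn.clog ?_ hsl)
    exact continuousOn_const.mul (continuousOn_id.sub continuousOn_const)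
  have hφc : ContinuousOn (fun z => (H z).im) S := Complex.continuous_im.comp_continuousOn hHc
  have hHe : ∀ z ∈ S, Complex.exp (H z) = ω⁻¹ := fun z hz => by
    have hne := Complex.slitPlane_ne_zero (hsl z hz)
    rw [hH]
    simp only
    rw [Complex.exp_sub, he z hz, Complex.exp_log hne]
    have h3 : ω ≠ 0 := left_ne_zero_of_mul hne
    have h4 : z - p ≠ 0 := right_ne_zero_of_mul hne
    field_simp
  have hint : ∀ z ∈ S, ∃ n : ℤ, (H z).im = (H v).im + n * (2 * Real.pi) := fun z hz => by
    have := (hHe z hz).trans (hHe v hv).symm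
    rw [Complex.exp_eq_exp_iff_exists_int] at this
    obtain ⟨n, hn⟩ := this
    refine ⟨n, ?_⟩
    rw [hn]
    simp
  have hpi := Real.pi_pos
  have hkey : ∀ z ∈ S, (H z).im = (H v).im := by
    intro z hz
    obtain ⟨n, hn⟩ := hint z hz
    rcases lt_trichotomy n 0 with hn0 | hn0 | hn0
    · exfalso
      have hle : (H z).im ≤ (H v).im - Real.pi := by
        have : (n : ℝ) ≤ -1 := by exact_mod_cast Int.le_sub_one_of_lt hn0
        nlinarith
      obtain ⟨w, hw, hww⟩ := hS.intermediate_value hz hv hφc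
        (show (H v).im - Real.pi ∈ Icc (H z).im (H v).im from ⟨hle, by linarith⟩)
      obtain ⟨m, hm⟩ := hint w hw
      simp only at hww
      rw [hm] at hww
      have h5 : (2 * (m : ℝ) + 1) * Real.pi = 0 := by linarith
      rcases mul_eq_zero.1 h5 with h6 | h6
      · have : (2 * m + 1 : ℤ) = 0 := by exact_mod_cast h6
        omega
      · exact hpi.ne' h6
    · rw [hn, hn0]
      simp
    · exfalso
      have hle : (H v).im + Real.pi ≤ (H z).im := by
        have : (1 : ℝ) ≤ n := by exact_mod_cast hn0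
        nlinarith
      obtain ⟨w, hw, hww⟩ := hS.intermediate_value hv hz hφc
        (show (H v).im + Real.pi ∈ Icc (H v).im (H z).im from ⟨by linarith, hle⟩)
      obtain ⟨m, hm⟩ := hint w hw
      simp only at hww
      rw [hm] at hww
      have h5 : (2 * (m : ℝ) - 1) * Real.pi = 0 := by linarith
      rcases mul_eq_zero.1 h5 with h6 | h6
      · have : (2 * m - 1 : ℤ) = 0 := by exact_mod_cast h6
        omega
      · exact hpi.ne' h6
  have h3 := hkey v' hv'
  simp only [hH, Complex.sub_im, Complex.log_im] at h3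
  have h4 : Complex.arg (ω * (v - p)) < 0 := Complex.arg_neg_iff.2 h1
  have h5 : 0 < Complex.arg (ω * (v' - p)) := by
    have h6 : 0 ≤ Complex.arg (ω * (v' - p)) := Complex.arg_nonneg_iff.2 h2.le
    rcases h6.lt_or_eq with h7 | h7
    · exact h7
    · exfalso
      have := (Complex.arg_eq_zero_iff.1 h7.symm).2
      linarith
  linarith

/-- A criterion for a hole: `K` contains four connected sets, one in each of the half planes to the
right of, above, to the left of and below `p`, such that consecutive ones meet. -/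
theorem isBounded_component {K : Set ℂ} (hK : IsCompact K) {p : ℂ}
    {S1 S2 S3 S4 : Set ℂ} (hS1 : IsPreconnected S1) (hS2 : IsPreconnected S2)
    (hS3 : IsPreconnected S3) (hS4 : IsPreconnected S4)
    (hK1 : S1 ⊆ K) (hK2 : S2 ⊆ K) (hK3 : S3 ⊆ K) (hK4 : S4 ⊆ K)
    (h1 : ∀ z ∈ S1, p.re < z.re) (h2 : ∀ z ∈ S2, p.im < z.im)
    (h3 : ∀ z ∈ S3, z.re < p.re) (h4 : ∀ z ∈ S4, z.im < p.im)
    {v1 v2 v3 v4 : ℂ} (a1 : v1 ∈ S1) (b1 : v1 ∈ S2) (a2 : v2 ∈ S2) (b2 : v2 ∈ S3)
    (a3 : v3 ∈ S3) (b3 : v3 ∈ S4) (a4 : v4 ∈ S4) (b4 : v4 ∈ S1) :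
    Bornology.IsBounded (connectedComponentIn Kᶜ p) := by
  by_contra hub
  obtain ⟨g, hg, he⟩ := hasLog_of_unbounded hK ⟨v1, hK1 a1⟩ hub
  have i1 : (g v4).im < (g v1).im := by
    refine arg_lt hS1 (ω := 1) (p := p) (hg.mono hK1) (fun z hz => he z (hK1 hz)) ?_ b4 a1 ?_ ?_
    · intro z hz
      have := h1 z hz
      simp; linarith
    · have := h4 v4 a4
      simp; linarith
    · have := h2 v1 b1
      simp; linarith
  have i2 : (g v1).im < (g v2).im := by
    refine arg_lt hS2 (ω := -Complex.I) (p := p) (hg.mono hK2) (fun z hz => he z (hK2 hz)) ?_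
      b1 a2 ?_ ?_
    · intro z hz
      have := h2 z hz
      simp; linarith
    · have := h1 v1 a1
      simp; linarith
    · have := h3 v2 b2
      simp; linarith
  have i3 : (g v2).im < (g v3).im := by
    refine arg_lt hS3 (ω := -1) (p := p) (hg.mono hK3) (fun z hz => he z (hK3 hz)) ?_
      b2 a3 ?_ ?_
    · intro z hz
      have := h3 z hz
      simp; linarith
    · have := h2 v2 a2
      simp; linarith
    · have := h4 v3 b3
      simp; linarith
  have i4 : (g v3).im < (g v4).im := by
    refine arg_lt hS4 (ω := Complex.I) (p := p) (hg.mono hK4) (fun z hz => he z (hK4 hz)) ?_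
      b3 a4 ?_ ?_
    · intro z hz
      have := h4 z hz
      simp; linarith
    · have := h3 v3 a3
      simp; linarith
    · have := h1 v4 b4
      simp; linarith
  linarith

end Pool.Agent.U445.Levy
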